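import Mathlib
import Pool.Agent.N70.EO.Stm

/-!
The group `X = ℤ/u ⋊ SymEP a r` (statement `St_gxOf` of the project EO, helper70): the subgroup of
the pairs `(f, e)` of `Perm (ZMod u) × SymEP a r` with `f z = c + θ(e) z` for some `c`.
-/

set_option autoImplicit false

namespace Pool.Agent.N665.EO

open Pool.Agent.H391R2 Pool.Agent.H391R2.T4 Pool.Agent.N70.EO Equiv
open Pool.Agent.N70.EP (SgnIndex)

/-! ### stabilizers -/

section

variable {X Ω : Type} [Group X] [Fintype Ω] [DecidableEq Ω]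

/-- the stabilizer of a point -/
def stabP (Φ : X →* Perm Ω) (ω : Ω) : Subgroup X where
  carrier := {x | Φ x ω = ω}
  one_mem' := by
    show Φ 1 ω = ω
    rw [map_one]; rfl
  mul_mem' := by
    intro a b ha hb
    show Φ (a * b) ω = ω
    rw [map_mul, Perm.mul_apply, (hb : Φ b ω = ω), (ha : Φ a ω = ω)]
  inv_mem' := by
    intro a ha
    show Φ a⁻¹ ω = ω
    rw [map_inv]
    exact (Equiv.symm_apply_eq (Φ a)).2 (ha : Φ a ω = ω).symm

omit [Fintype Ω] [DecidableEq Ω] in
theorem mem_stabP (Φ : X →* Perm Ω) (ω : Ω) (x : X) : x ∈ stabP Φ ω ↔ Φ x ω = ω := Iff.rfl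

omit [Fintype Ω] [DecidableEq Ω] in
theorem coset_eq (Φ : X →* Perm Ω) (ω : Ω) (x y : X) :
    ((x : X ⧸ stabP Φ ω) = (y : X ⧸ stabP Φ ω)) ↔ Φ x ω = Φ y ω := by
  rw [QuotientGroup.eq, mem_stabP, map_mul, map_inv, Perm.mul_apply]
  constructor
  · intro h
    exact ((Equiv.symm_apply_eq (Φ x)).1 h).symm
  · intro h
    exact (Equiv.symm_apply_eq (Φ x)).2 h.symm

theorem sgnIndex_of (Φ : X →* Perm Ω) (ω : Ω) (ht : ∀ ω', ∃ x, Φ x ω = ω') (m : ℕ)
    (hm : Fintype.card Ω = m) (ψ : X →* ℤˣ) (hψ : ∀ x, Perm.sign (Φ x) = ψ x) :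
    SgnIndex X (stabP Φ ω) m ψ := by
  let e : Fin m ≃ Ω := (Fintype.equivFinOfCardEq hm).symm
  choose g hg using fun t : Fin m => ht (e t)
  have heq := coset_eq Φ ω
  refine ⟨g, ⟨?_, ?_⟩, ?_⟩
  · intro t s hts
    have h1 := (heq (g t) (g s)).1 hts
    rw [hg, hg] at h1
    exact e.injective h1
  · intro q
    obtain ⟨x, rfl⟩ := QuotientGroup.mk_surjective q
    refine ⟨e.symm (Φ x ω), ?_⟩
    show ((g (e.symm (Φ x ω)) : X) : X ⧸ stabP Φ ω) = (x : X ⧸ stabP Φ ω)
    rw [heq, hg, Equiv.apply_symm_apply]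
  · intro γ π hπ
    have h1 : ∀ t, Φ γ (e t) = e (π t) := by
      intro t
      have h2 := (heq _ _).1 (hπ t)
      rw [map_mul, Perm.mul_apply, hg, hg] at h2
      exact h2
    rw [← hψ]
    exact (Perm.sign_eq_sign_of_equiv (Φ γ) π e.symm fun x => by
      obtain ⟨t, rfl⟩ := e.surjective x
      rw [h1, Equiv.symm_apply_apply, Equiv.symm_apply_apply]).symm

end

/-! ### the group -/

section

variable {H B : Type} [Group H] [Group B] (a : B →* H) (χ : H →* ℤˣ) (u r : ℕ)

/-- the sign with which an element acts on `ZMod u` -/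
def tht : SymEP a r →* ℤˣ :=
  (Perm.sign.comp (SemidirectProduct.rightHom.comp
    ((MonoidHom.fst (Wr B r) H).comp (SymEP a r).subtype))) * (χ.comp (symProj a r))

theorem tht_apply (e : SymEP a r) :
    tht a χ r e = Perm.sign (e : Wr B r × H).1.right * χ (e : Wr B r × H).2 := rfl

theorem unit_sq (ε : ℤˣ) : ((ε : ℤ) : ZMod u) * ((ε : ℤ) : ZMod u) = 1 := by
  rcases Int.units_eq_one_or ε with rfl | rfl <;> simp

/-- the group `X` -/
def XG : Subgroup (Perm (ZMod u) × SymEP a r) where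
  carrier := {x | ∃ c : ZMod u, ∀ z, x.1 z = c + (((tht a χ r x.2 : ℤˣ) : ℤ) : ZMod u) * z}
  one_mem' := ⟨0, fun z => by simp⟩
  mul_mem' := by
    rintro x y ⟨c, hc⟩ ⟨d, hd⟩
    refine ⟨c + (((tht a χ r x.2 : ℤˣ) : ℤ) : ZMod u) * d, fun z => ?_⟩
    have h1 : (x * y).1 z = x.1 (y.1 z) := rfl
    have h2 : (x * y).2 = x.2 * y.2 := rfl
    rw [h1, hd, hc, h2, map_mul]
    push_cast
    ring
  inv_mem' := by
    rintro x ⟨c, hc⟩
    refine ⟨-((((tht a χ r x.2 : ℤˣ) : ℤ) : ZMod u) * c), fun z => ?_⟩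
    have h1 : (x⁻¹).1 z = x.1.symm z := rfl
    have h2 : (x⁻¹).2 = x.2⁻¹ := rfl
    rw [h1, h2, map_inv, Int.units_inv_eq_self, Equiv.symm_apply_eq, hc]
    have h3 := unit_sq u (tht a χ r x.2)
    linear_combination (-1 : ZMod u) * (z - c) * h3

theorem mem_XG (x : XG a χ u r) : ∃ c : ZMod u, ∀ z, (x : Perm (ZMod u) × SymEP a r).1 z =
    c + (((tht a χ r (x : Perm (ZMod u) × SymEP a r).2 : ℤˣ) : ℤ) : ZMod u) * z := x.2

/-- the projection -/
def xi : XG a χ u r →* SymEP a r :=
  (MonoidHom.snd (Perm (ZMod u)) (SymEP a r)).comp (XG a χ u r).subtype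

/-- the section -/
def sec : SymEP a r →* XG a χ u r :=
  MonoidHom.codRestrict
    (((MulAction.toPermHom ℤˣ (ZMod u)).comp (tht a χ r)).prod (MonoidHom.id (SymEP a r)))
    (XG a χ u r) (fun e => ⟨0, fun z => by
      change (tht a χ r e) • z = 0 + (((tht a χ r e : ℤˣ) : ℤ) : ZMod u) * z
      rw [zero_add, Units.smul_def, zsmul_eq_mul]⟩)

theorem xi_sec (e : SymEP a r) : xi a χ u r (sec a χ u r e) = e := rfl

theorem sec_fst (e : SymEP a r) (z : ZMod u) :
    (sec a χ u r e : Perm (ZMod u) × SymEP a r).1 z = (tht a χ r e) • z := rfl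

/-- the translations -/
def tra (c : ZMod u) : XG a χ u r :=
  ⟨(Equiv.addLeft c, 1), ⟨c, fun z => by
    change c + z = c + (((tht a χ r 1 : ℤˣ) : ℤ) : ZMod u) * z
    rw [map_one]; simp⟩⟩

/-- the action -/
def Act : XG a χ u r →* Perm (Fin r × ZMod u) where
  toFun x := Equiv.prodCongr ((x : Perm (ZMod u) × SymEP a r).2 : Wr B r × H).1.right
    (x : Perm (ZMod u) × SymEP a r).1
  map_one' := by ext p <;> rfl
  map_mul' x y := by ext p <;> rfl

theorem act_apply (x : XG a χ u r) (i : Fin r) (z : ZMod u) : Act a χ u r x (i, z) =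
    (((x : Perm (ZMod u) × SymEP a r).2 : Wr B r × H).1.right i,
      (x : Perm (ZMod u) × SymEP a r).1 z) := rfl

end

/-- GX from SG. -/
theorem t_gxo : St_gxOf := by
  classical
  intro hsg H B _ _ _ _ a ha χ u r hu hr
  have : NeZero u := ⟨by omega⟩
  have hr0 : 0 < r := hr.pos
  let i0 : Fin r := ⟨0, hr0⟩
  set Φ := Act a χ u r with hΦdef
  let P : Subgroup (XG a χ u r) := stabP Φ (i0, 0)
  have hPr : ∀ p : P, ((((p : XG a χ u r) : Perm (ZMod u) × SymEP a r).2 : Wr B r × H).1.right) i0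
      = i0 := by
    intro p
    have h1 : Φ p (i0, 0) = (i0, 0) := p.2
    rw [hΦdef, act_apply] at h1
    exact congrArg Prod.fst h1
  let β : P →* B :=
    { toFun := fun p => ((((p : XG a χ u r) : Perm (ZMod u) × SymEP a r).2 : Wr B r × H).1.left i0)
      map_one' := rfl
      map_mul' := fun x y => by
        have h1 : (((((x : XG a χ u r) : Perm (ZMod u) × SymEP a r).2 : Wr B r × H).1.right)⁻¹ : Perm (Fin r)) i0 = i0 :=
          (Equiv.symm_apply_eq _).2 (hPr x).symm
        change ((((x : XG a χ u r) : Perm (ZMod u) × SymEP a r).2 : Wr B r × H).1 *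
          (((y : XG a χ u r) : Perm (ZMod u) × SymEP a r).2 : Wr B r × H).1).left i0 = _
        rw [wr_mul_left, h1] }
  have hβ : ∀ p : P, β p =
      ((((p : XG a χ u r) : Perm (ZMod u) × SymEP a r).2 : Wr B r × H).1.left i0) := fun p => rfl
  have hmem : ∀ (e : SymEP a r) i, a ((e : Wr B r × H).1.left i) = (e : Wr B r × H).2 :=
    fun e i => e.2 i
  have htrans : ∀ ω' : Fin r × ZMod u, ∃ x, Φ x (i0, 0) = ω' := by
    rintro ⟨j, z⟩
    let e : SymEP a r := ⟨(⟨fun _ => 1, swap i0 j⟩, 1), fun i => map_one a⟩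
    refine ⟨tra a χ u r z * sec a χ u r e, ?_⟩
    rw [map_mul, Perm.mul_apply, hΦdef, act_apply, act_apply, sec_fst, smul_zero]
    change (swap i0 j i0, z + 0) = (j, z)
    rw [swap_apply_left, add_zero]
  have hsign : ∀ x, Perm.sign (Φ x) = (χ.comp ((symProj a r).comp (xi a χ u r))) x := by
    intro x
    obtain ⟨c, hc⟩ := mem_XG a χ u r x
    have h1 := hsg r u hr hu (((x : Perm (ZMod u) × SymEP a r).2 : Wr B r × H).1.right)
      (fun _ => c) (tht a χ r (x : Perm (ZMod u) × SymEP a r).2) (Φ x) (fun i z => by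
        rw [hΦdef, act_apply, hc])
    rw [h1, tht_apply, ← mul_assoc, ← sq, Int.units_sq, one_mul]
    rfl
  have hfin : Finite (Wr B r) := Finite.of_injective
    (fun x : Wr B r => ((x.left, x.right) : (Fin r → B) × Perm (Fin r))) (fun x y h => by
      apply SemidirectProduct.ext
      · exact congrArg Prod.fst h
      · exact congrArg Prod.snd h)
  have hfin2 : Finite (XG a χ u r) := inferInstance
  refine ⟨XG a χ u r, inferInstance, hfin2, xi a χ u r, sec a χ u r, P, β,
    fun e => rfl, ?_, ?_, ?_, ?_, ?_⟩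
  · -- the kernel is commutative
    intro x y hx hy
    obtain ⟨c, hc⟩ := mem_XG a χ u r x
    obtain ⟨d, hd⟩ := mem_XG a χ u r y
    have hx' : (x : Perm (ZMod u) × SymEP a r).2 = 1 := hx
    have hy' : (y : Perm (ZMod u) × SymEP a r).2 = 1 := hy
    rw [hx', map_one] at hc
    rw [hy', map_one] at hd
    apply Subtype.ext
    apply Prod.ext
    · ext1 z
      change (x : Perm (ZMod u) × SymEP a r).1 ((y : Perm (ZMod u) × SymEP a r).1 z) =
        (y : Perm (ZMod u) × SymEP a r).1 ((x : Perm (ZMod u) × SymEP a r).1 z)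
      rw [hc, hd, hc, hd]
      simp only [Units.val_one, Int.cast_one, one_mul]
      ring
    · change (x : Perm (ZMod u) × SymEP a r).2 * (y : Perm (ZMod u) × SymEP a r).2 =
        (y : Perm (ZMod u) × SymEP a r).2 * (x : Perm (ZMod u) × SymEP a r).2
      rw [hx', hy']
  · -- surjectivity of `β`
    intro b
    let e : SymEP a r := ⟨(⟨fun _ => b, 1⟩, a b), fun i => rfl⟩
    refine ⟨⟨sec a χ u r e, ?_⟩, rfl⟩
    change Φ (sec a χ u r e) (i0, 0) = (i0, 0)
    rw [hΦdef, act_apply, sec_fst, smul_zero]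
    rfl
  · intro p
    exact hmem _ i0
  · refine sgnIndex_of Φ (i0, 0) htrans (u * r) ?_ _ hsign
    rw [Fintype.card_prod, Fintype.card_fin, ZMod.card, mul_comm]
  · -- the special elements
    intro ν hν
    let e : SymEP a r := ⟨(⟨Pi.mulSingle i0 ν, 1⟩, 1), fun i => by
      change a ((Pi.mulSingle i0 ν : Fin r → B) i) = 1
      rw [Pi.mulSingle_apply]
      split_ifs
      · exact hν
      · exact map_one a⟩
    let γ : XG a χ u r := ⟨(1, e), ⟨0, fun z => by
      have : tht a χ r e = 1 := by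
        rw [tht_apply]
        change Perm.sign (1 : Perm (Fin r)) * χ 1 = 1
        rw [map_one, map_one, one_mul]
      rw [this]
      simp⟩⟩
    -- the conjugates
    have hc1 : ∀ g : XG a χ u r, ((g⁻¹ * γ * g : XG a χ u r) : Perm (ZMod u) × SymEP a r).1 = 1 := by
      intro g
      change ((g : Perm (ZMod u) × SymEP a r).1)⁻¹ * 1 * (g : Perm (ZMod u) × SymEP a r).1 = 1
      rw [mul_one, inv_mul_cancel]
    have hc2 : ∀ g : XG a χ u r,
        (((g⁻¹ * γ * g : XG a χ u r) : Perm (ZMod u) × SymEP a r).2 : Wr B r × H).1.right = 1 := by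
      intro g
      change ((((g : Perm (ZMod u) × SymEP a r).2 : Wr B r × H).1.right)⁻¹ * 1 *
        (((g : Perm (ZMod u) × SymEP a r).2 : Wr B r × H).1.right) : Perm (Fin r)) = 1
      rw [mul_one, inv_mul_cancel]
    have hc3 : ∀ g : XG a χ u r,
        (((g⁻¹ * γ * g : XG a χ u r) : Perm (ZMod u) × SymEP a r).2 : Wr B r × H).1.left i0 =
        ((((g : Perm (ZMod u) × SymEP a r).2 : Wr B r × H).1.left
          ((((g : Perm (ZMod u) × SymEP a r).2 : Wr B r × H).1.right) i0)))⁻¹ *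
          (Pi.mulSingle i0 ν : Fin r → B)
            ((((g : Perm (ZMod u) × SymEP a r).2 : Wr B r × H).1.right) i0) *
          ((((g : Perm (ZMod u) × SymEP a r).2 : Wr B r × H).1.left
          ((((g : Perm (ZMod u) × SymEP a r).2 : Wr B r × H).1.right) i0))) := by
      intro g
      set w : Wr B r := ((g : Perm (ZMod u) × SymEP a r).2 : Wr B r × H).1 with hw
      have h1 : (((g⁻¹ * γ * g : XG a χ u r) : Perm (ZMod u) × SymEP a r).2 : Wr B r × H).1 =
          w⁻¹ * (⟨Pi.mulSingle i0 ν, 1⟩ : Wr B r) * w := rfl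
      rw [h1, wr_mul_left, wr_mul_left, wr_inv_left]
      have h2 : (w⁻¹.right)⁻¹ i0 = w.right i0 := by
        rw [SemidirectProduct.inv_right, inv_inv]
      have h3 : ((w⁻¹ * (⟨Pi.mulSingle i0 ν, 1⟩ : Wr B r)).right)⁻¹ i0 = w.right i0 := by
        rw [wr_mul_right]
        change ((w⁻¹.right * 1)⁻¹ : Perm (Fin r)) i0 = w.right i0
        rw [mul_one]
        exact h2
      rw [h2, h3]
    have hP : ∀ g : XG a χ u r, g⁻¹ * γ * g ∈ P := by
      intro g
      change Φ (g⁻¹ * γ * g) (i0, 0) = (i0, 0)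
      rw [hΦdef, act_apply, hc1, hc2]
      rfl
    refine ⟨γ, hP, rfl, ?_, ?_⟩
    · intro p
      rw [hβ]
      change (Pi.mulSingle i0 ν : Fin r → B) i0 = ν
      rw [Pi.mulSingle_apply, if_pos rfl]
    · intro g hg hbij A _ θ hθ
      have hθ1 : θ 1 = 1 := by
        have := hθ 1 1 (map_one a) (map_one a)
        rw [one_mul] at this
        exact (mul_eq_left.1 this.symm)
      -- the values
      have hval : ∀ t, θ (β ⟨(g t)⁻¹ * γ * g t, hP (g t)⟩) =
          if (Φ (g t) (i0, 0)).1 = i0 then θ ν else 1 := by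
        intro t
        rw [hβ]
        change θ ((((((g t)⁻¹ * γ * g t : XG a χ u r) : Perm (ZMod u) × SymEP a r).2 :
          Wr B r × H).1.left i0)) = _
        rw [hc3]
        have h5 : (Φ (g t) (i0, 0)).1 =
          (((g t : XG a χ u r) : Perm (ZMod u) × SymEP a r).2 : Wr B r × H).1.right i0 := rfl
        rw [h5]
        set w : Wr B r := (((g t : XG a χ u r) : Perm (ZMod u) × SymEP a r).2 : Wr B r × H).1
          with hw
        have hf : a (w.left (w.right i0)) = 1 := by
          rw [hw, hmem]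
          exact hg t
        by_cases h6 : w.right i0 = i0
        · rw [if_pos h6, h6, Pi.mulSingle_eq_same]
          rw [h6] at hf
          have h7 : a ((w.left i0)⁻¹) = 1 := by rw [map_inv, hf, inv_one]
          rw [hθ _ _ (by rw [map_mul, h7, hν, one_mul]) hf, hθ _ _ h7 hν]
          have h8 : θ ((w.left i0)⁻¹) * θ (w.left i0) = 1 := by
            rw [← hθ _ _ h7 hf, inv_mul_cancel, hθ1]
          calc θ ((w.left i0)⁻¹) * θ ν * θ (w.left i0)
              = θ ν * (θ ((w.left i0)⁻¹) * θ (w.left i0)) := by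
                rw [mul_comm (θ ((w.left i0)⁻¹)) (θ ν), mul_assoc]
            _ = θ ν := by rw [h8, mul_one]
        · rw [if_neg h6, Pi.mulSingle_eq_of_ne h6, mul_one, inv_mul_cancel, hθ1]
      rw [Finset.prod_congr rfl fun t _ => hval t]
      -- the bijection with the points
      have hb2 : Function.Bijective (fun t => Φ (g t) (i0, 0)) := by
        constructor
        · intro t t' h
          exact hbij.1 ((coset_eq Φ (i0, 0) (g t) (g t')).2 h)
        · intro ω
          obtain ⟨x, hx⟩ := htrans ω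
          obtain ⟨t, ht⟩ := hbij.2 (x : XG a χ u r ⧸ P)
          refine ⟨t, ?_⟩
          change Φ (g t) (i0, 0) = ω
          rw [(coset_eq Φ (i0, 0) (g t) x).1 ht, hx]
      have h9 := Function.Bijective.prod_comp hb2 (fun ω : Fin r × ZMod u =>
        if ω.1 = i0 then θ ν else 1)
      rw [h9, Fintype.prod_prod_type]
      have h10 : ∀ i : Fin r, ∏ _z : ZMod u, (if i = i0 then θ ν else 1) =
          if i = i0 then θ ν ^ u else 1 := by
        intro i
        rw [Finset.prod_const, Finset.card_univ, ZMod.card]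
        split_ifs
        · rfl
        · rw [one_pow]
      rw [Finset.prod_congr rfl fun i _ => h10 i, Finset.prod_ite_eq' Finset.univ i0]
      rw [if_pos (Finset.mem_univ _)]

end Pool.Agent.N665.EO
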